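import Pool.Agent.N988.ES.Stm

/-!
# Project ES (helper988), part NF (helper564): no fork in the pivotal set
-/

set_option autoImplicit false

open Pool.Agent.N988.EA Pool.Agent.N988.EC Pool.Agent.N988.EP Pool.Agent.N988.ES

namespace Pool.Agent.N564.ES

/-- forks are monotone -/
theorem fork_mono {b n : ℕ} : ∀ (m : ℕ) {S T : Set (Edge b (n + m))}, S ⊆ T → Fork m S → Fork m T
  | 0, _, _, _, h => h
  | m + 1, S, T, hST, h => by
    have hc : ∀ (i : Fin b) (s : Bool), cell (n := n + m) S i s ⊆ cell (n := n + m) T i s :=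
      fun i s e he => hST he
    rcases h with ⟨i, j, s, hj, h1, h2, h3⟩ | ⟨i, s, h⟩
    · exact Or.inl ⟨i, j, s, hj, h1.mono (hc _ _), h2.mono (hc _ _), h3.mono (hc _ _)⟩
    · exact Or.inr ⟨i, s, fork_mono m (hc i s) h⟩

theorem t_NF (h : S_PIV) : S_NF := by
  intro b hb n m
  obtain ⟨-, -, -, h4⟩ := h b hb
  induction m with
  | zero => exact fun w h => h
  | succ m ih =>
    intro w hf
    rcases hf with ⟨i, j, s, hj, ⟨e1, h1⟩, ⟨e2, h2⟩, ⟨e3, h3⟩⟩ | ⟨i, s, hf⟩
    · have k1 := (h4 (n + m) w i false e1).mp h1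
      have k2 := (h4 (n + m) w i true e2).mp h2
      have k3 := (h4 (n + m) w j s e3).mp h3
      exact k3.2.2 i (Ne.symm hj) ⟨k2.2.1, k1.2.1⟩
    · refine ih (sub w i s) (fork_mono m ?_ hf)
      intro e he
      exact ((h4 (n + m) w i s e).mp he).1

end Pool.Agent.N564.ES
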