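import Pool.Agent.N652.OM.Stm2
import Pool.Agent.Helper436.SM.Sub
import Pool.Agent.Helper436.SN.H3
import Pool.Agent.Helper436.SN.H2
import Pool.Agent.Helper436.SN.Bridge

set_option autoImplicit false
set_option linter.unusedSectionVars false

/-! OM2/EMB: from the group to the factor. -/

open scoped InnerProductSpace ComplexOrder Topology BoundedContinuousFunction
open Filter

namespace Pool.Agent.N564.OMEMB

open Pool.Agent.Helper278 Pool.Agent.Helper436.SM.Sub

section sub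

variable {Q : Type} [Ring Q] [StarRing Q] [Algebra ℂ Q] [StarModule ℂ Q]

/-- The von Neumann algebra generated by an orthonormal family of unitaries of a tracial algebra `Q` with a
well behaved ball, closed under products and adjoints up to scalars; `θ` is its inclusion in `Q`, `r i`
are the unitaries, and Parseval's identity holds. -/
theorem exists_sub' {f : Q →ₗ[ℂ] ℂ} {B : Set Q} (hA : TrAlg f) (hB : CE.Ball f B) {ι : Type}
    (q : ι → Q) (hq : ∀ i, q i ∈ unitary Q)
    (horth : ∀ i j, i ≠ j → f (star (q i) * q j) = 0)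
    (hmul : ∀ i j, ∃ (k : ι) (c : ℂ), q i * q j = c • q k)
    (hstar : ∀ i, ∃ (k : ι) (c : ℂ), star (q i) = c • q k) (hone : ∃ i, q i = 1) :
    ∃ (K : Type) (_ : NormedAddCommGroup K) (_ : InnerProductSpace ℂ K) (_ : CompleteSpace K)
      (M : VonNeumannAlgebra K) (S : TracialState M) (θ : Elt M →⋆ₐ[ℂ] Q) (r : ι → Elt M),
      (∀ x, f (θ x) = S.τ x) ∧ (∀ i, θ (r i) = q i) ∧
      ∀ x : Elt M, HasSum (fun i => ‖S.τ (star (r i) * x)‖ ^ 2) (n2 S.τ x ^ 2) := by
  obtain ⟨K, i1, i2, i3, j, hd, hj⟩ := CE.exists_gns hA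
  -- the orthonormal family
  set w : ι → K := fun i => j (q i) with hwdef
  have hw : Orthonormal ℂ w := by
    classical
    rw [orthonormal_iff_ite]
    intro a b
    rw [hwdef]
    show ⟪j (q a), j (q b)⟫_ℂ = _
    rw [hj]
    by_cases hab : a = b
    · subst hab
      rw [if_pos rfl, (Unitary.mem_iff.1 (hq a)).1, hA.one]
    · rw [if_neg hab, horth a b hab]
  let K0 : Submodule ℂ K := (Submodule.span ℂ (Set.range w)).topologicalClosure
  have hcl : IsClosed (K0 : Set K) := Submodule.isClosed_topologicalClosure _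
  have hcomp : CompleteSpace K0 := hcl.completeSpace_coe
  have hmem : ∀ i, j (q i) ∈ Submodule.span ℂ (Set.range w) := fun i =>
    Submodule.subset_span ⟨i, rfl⟩
  -- left multiplications preserve `K0`
  have hpres : ∀ (k : ι) (c : ℂ) (a : Q), a = c • q k → ∀ x ∈ K0, CE.Lm j a x ∈ K0 := by
    intro k c a ha
    have hcl2 : IsClosed ((K0.comap ((CE.Lm j a : K →L[ℂ] K) : K →ₗ[ℂ] K) : Submodule ℂ K) : Set K) :=
      hcl.preimage (CE.Lm j a).continuous
    have h1 : K0 ≤ K0.comap ((CE.Lm j a : K →L[ℂ] K) : K →ₗ[ℂ] K) := by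
      refine Submodule.topologicalClosure_minimal _ ?_ hcl2
      rw [Submodule.span_le]
      rintro _ ⟨m, rfl⟩
      show CE.Lm j a (j (q m)) ∈ K0
      rw [CE.Lm_j hA hd hj hB, ha, smul_mul_assoc]
      obtain ⟨l, c', hl⟩ := hmul k m
      rw [hl, map_smul, map_smul]
      exact (Submodule.span ℂ (Set.range w)).le_topologicalClosure
        (Submodule.smul_mem _ _ (Submodule.smul_mem _ _ (hmem l)))
    exact fun x hx => h1 hx
  have hpq : ∀ i, ∀ x ∈ K0, CE.Lm j (q i) x ∈ K0 := fun i => hpres i 1 _ (one_smul _ _).symm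
  have hps : ∀ i, ∀ x ∈ K0, star (CE.Lm j (q i)) x ∈ K0 := by
    intro i
    obtain ⟨k, c, hk⟩ := hstar i
    rw [CE.star_Lm hA hd hj hB]
    exact hpres k c _ hk
  set e0 : K →L[ℂ] K := K0.starProjection with he0
  have he0s : star e0 = e0 := isSelfAdjoint_starProjection K0
  let M : VonNeumannAlgebra K := cutVN (CE.MM j) {e0}
  have hr : ∀ i, CE.Lm j (q i) ∈ M := by
    intro i
    refine (mem_cutVN _ _ _).2 ⟨CE.Lm_mem (q i), ?_⟩
    intro s hs
    rw [Set.mem_singleton_iff] at hs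
    subst hs
    have h1 : e0 * CE.Lm j (q i) = CE.Lm j (q i) * e0 :=
      starProjection_commute K0 _ (hpq i) (hps i)
    rw [he0s]
    exact ⟨h1, h1⟩
  have hle : M.toStarSubalgebra ≤ (CE.MM j).toStarSubalgebra := by
    intro x hx
    exact ((mem_cutVN _ _ _).1 (show x ∈ M from hx)).1
  let e := CE.LmEquiv hA hd hj hB
  let incl : Elt M →⋆ₐ[ℂ] Elt (CE.MM j) := StarSubalgebra.inclusion hle
  let θ : Elt M →⋆ₐ[ℂ] Q := (e.symm : Elt (CE.MM j) →⋆ₐ[ℂ] Q).comp incl
  have hθ : ∀ x, θ x = e.symm (incl x) := fun x => rfl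
  have hθinj : Function.Injective θ := by
    intro x y hxy
    rw [hθ, hθ] at hxy
    have h1 := e.symm.injective hxy
    apply Subtype.ext
    exact congrArg (fun z : Elt (CE.MM j) => (z : K →L[ℂ] K)) h1
  let τM : Elt M → ℂ := fun x => ⟪j 1, (x : K →L[ℂ] K) (j 1)⟫_ℂ
  have hτ : ∀ x, τM x = f (θ x) := by
    intro x
    rw [← CE.tauM_LmEquiv hA hd hj hB, hθ]
    show _ = CE.tauM j (e (e.symm (incl x)))
    rw [e.apply_symm_apply]
    rfl
  have hfaith : IsFaithfulTrace τM := by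
    refine ⟨?_, ?_, ?_⟩
    · rw [hτ, map_one, hA.one]
    · intro x y
      rw [hτ, hτ, map_mul θ, map_mul θ, hA.comm]
    · intro x hx
      rw [hτ, map_mul θ, map_star θ] at hx
      have h1 := hA.faithful _ hx
      apply hθinj
      rw [h1, map_zero]
  let S : TracialState M := mkState M τM (CE.normal_vector M τM (j 1) fun _ => rfl) hfaith
  have hS : ∀ x, S.τ x = τM x := fun x => rfl
  refine ⟨K, i1, i2, i3, M, S, θ, fun i => ⟨CE.Lm j (q i), hr i⟩, ?_, ?_, ?_⟩
  · intro x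
    rw [hS, hτ]
  · intro i
    rw [hθ]
    have h1 : incl ⟨CE.Lm j (q i), hr i⟩ = e (q i) := by
      apply Subtype.ext
      rfl
    rw [h1, e.symm_apply_apply]
  · intro x
    -- the vector
    have hx1 : ((x : K →L[ℂ] K) (j 1)) ∈ K0 := by
      obtain ⟨i0, hi0⟩ := hone
      have h1 : j 1 ∈ K0 := by
        rw [← hi0]
        exact (Submodule.span ℂ (Set.range w)).le_topologicalClosure (hmem i0)
      have h2 : e0 * (x : K →L[ℂ] K) = (x : K →L[ℂ] K) * e0 :=
        (((mem_cutVN _ _ _).1 (show (x : K →L[ℂ] K) ∈ M from x.2)).2 e0 rfl).1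
      have h3 : e0 (j 1) = j 1 := Submodule.starProjection_eq_self_iff.2 h1
      have h4 : e0 ((x : K →L[ℂ] K) (j 1)) = (x : K →L[ℂ] K) (j 1) := by
        have h7 : e0 ((x : K →L[ℂ] K) (j 1)) = (x : K →L[ℂ] K) (e0 (j 1)) :=
          congrArg (fun R : K →L[ℂ] K => R (j 1)) h2
        rw [h7, h3]
      exact Submodule.starProjection_eq_self_iff.1 h4
    have hP := parseval_closedSpan w hw _ hx1
    have h5 : ∀ i, S.τ (star (⟨CE.Lm j (q i), hr i⟩ : Elt M) * x) =
        ⟪w i, (x : K →L[ℂ] K) (j 1)⟫_ℂ := by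
      intro i
      rw [hS]
      show ⟪j 1, (star (CE.Lm j (q i)) * (x : K →L[ℂ] K)) (j 1)⟫_ℂ = _
      rw [ContinuousLinearMap.star_eq_adjoint]
      show ⟪j 1, ContinuousLinearMap.adjoint (CE.Lm j (q i)) ((x : K →L[ℂ] K) (j 1))⟫_ℂ = _
      rw [ContinuousLinearMap.adjoint_inner_right, CE.Lm_j hA hd hj hB, mul_one]
    have h6 : n2 S.τ x ^ 2 = ‖(x : K →L[ℂ] K) (j 1)‖ ^ 2 := by
      have hST : TrAlg S.τ := trAlg S
      rw [hST.n2_sq, hS]
      show (⟪j 1, (star (x : K →L[ℂ] K) * (x : K →L[ℂ] K)) (j 1)⟫_ℂ).re = _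
      rw [ContinuousLinearMap.star_eq_adjoint]
      show (⟪j 1, ContinuousLinearMap.adjoint (x : K →L[ℂ] K) ((x : K →L[ℂ] K) (j 1))⟫_ℂ).re = _
      rw [ContinuousLinearMap.adjoint_inner_right, inner_self_eq_norm_sq_to_K]
      rw [← Complex.ofReal_re (‖(x : K →L[ℂ] K) (j 1)‖ ^ 2)]
      push_cast
      rfl
    simp only [h5, h6]
    exact hP

end sub

open Pool.Agent.N652.OM Pool.Agent.Helper436.SN Pool.Agent.Helper278.RG Pool.Agent.Helper278.CE

theorem main (hM : S_MUB) : S_EMB := by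
  intro U hU Q _ _ _ _ π φ hπ Γ _ q hqs hq0
  obtain ⟨f, B, hf, hA, hB⟩ := hM U hU Q π φ hπ
  have q_unit : ∀ t, q t ∈ unitary Q := by
    intro t
    rw [Unitary.mem_iff]
    constructor
    · rw [hqs, ← map_mul, inv_mul_cancel, map_one]
    · rw [hqs, ← map_mul, mul_inv_cancel, map_one]
  have horth : ∀ i j, i ≠ j → f (star (q i) * q j) = 0 := by
    intro i j hij
    rw [hqs, ← map_mul, hf]
    exact hq0 _ fun h => hij (inv_mul_eq_one.1 h)
  obtain ⟨K, _, _, _, M, S, θ, r, hσ, hr, hpars⟩ := exists_sub' hA hB (fun g => q g) q_unit horth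
    (fun i j => ⟨i * j, 1, by rw [one_smul, map_mul]⟩)
    (fun i => ⟨i⁻¹, 1, by rw [one_smul]; exact hqs i⟩) ⟨1, map_one q⟩
  have hθ : Function.Injective θ := by
    rw [injective_iff_map_eq_zero]
    intro x hx
    apply S.faithful
    rw [← hσ, map_mul, hx, mul_zero, map_zero]
  let u : Γ →* Elt M :=
    { toFun := fun g => r g
      map_one' := hθ (by rw [hr, map_one, map_one])
      map_mul' := fun g h => hθ (by
        rw [map_mul, hr, hr, hr, map_mul]) }
  have hu : ∀ g, u g = r g := fun g => rfl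
  have hPG : PG S.τ u := by
    refine ⟨trAlg S, ?_, ?_⟩
    · intro g
      apply hθ
      rw [hu, hu, map_star, hr, hr, hqs]
    · exact hpars
  obtain ⟨e, he⟩ := exists_iso S (ball_elt S) hPG
  refine transport Γ (fun N τ => ∃ θ : Elt N →⋆ₐ[ℂ] Q, ∀ x, φ (θ x) = τ x) ?_
  refine ⟨θ.comp e, fun x => ?_⟩
  show φ (θ (e x)) = (TL (sb Γ)).τ x
  rw [← hf, hσ, he]

end Pool.Agent.N564.OMEMB
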