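import Pool.Agent.N906.RN.Stm

set_option autoImplicit false

/-!
# The upper bound, uniform in the exponent (S_UPR)
-/

namespace Pool.Agent.N564.RN

open Finset Filter Topology Pool.Agent.N906.NT Pool.Agent.N906.RN Pool.Agent.N130.NT

/-- UPR, the upper bound, uniform in the exponent -/
theorem upr (h2 : S_UPAU) (h3 : S_UPBU) : S_UPR := by
  classical
  have h1 : S_RED := Pool.Agent.N475.NT.red
  intro n r κ₀ κ₁ ε hr hrn hκ₀ hκ01 hκ3 hε
  obtain ⟨Xa, hXa3, ha⟩ := h2 n r κ₀ κ₁ (1 / 6) (ε / 2) hr hrn hκ₀ hκ01 (by norm_num)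
    (by linarith) (by positivity)
  obtain ⟨Xb, hXb3, hb⟩ := h3 n r κ₀ κ₁ (1 / 6) hr hrn hκ₀ hκ01 hκ3 (by norm_num)
  have hcst : 0 < cst r (n.choose r) := cst_pos _ _ hr (Nat.choose_pos (by omega))
  set CN : ℝ := 6 ^ n + 3 ^ n * (6 ^ n + 2) with hCN
  have hCN0 : 0 < CN := by positivity
  have has := asym (Real.log CN) κ₀ (ε / 2 * cst r (n.choose r)) n r hr hκ₀ (by positivity)
  obtain ⟨Xc, hXc⟩ := eventually_atTop.mp has
  refine ⟨max (max Xa Xb) (max Xc 31), by
    have := le_max_left Xa Xb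
    have := le_max_left (max Xa Xb) (max Xc 31)
    linarith, ?_⟩
  intro κ X F hκ0 hκ1 hX hF
  have hκ : 0 < κ := lt_of_lt_of_le hκ₀ hκ0
  have hXa : Xa ≤ X := ((le_max_left _ _).trans (le_max_left _ _)).trans hX
  have hXb : Xb ≤ X := ((le_max_right _ _).trans (le_max_left _ _)).trans hX
  have hXc' : Xc ≤ X := ((le_max_left _ _).trans (le_max_right _ _)).trans hX
  have hX31 : (31 : ℝ) ≤ X := ((le_max_right _ _).trans (le_max_right _ _)).trans hX
  have has' := hXc X hXc'
  have hX0 : 0 < X := by linarith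
  have hX1 : 1 ≤ X := by linarith
  have hlogX : 1 ≤ Real.log X := by
    rw [Real.le_log_iff_exp_le hX0]
    have := Real.exp_one_lt_d9
    linarith
  set S : ℝ := (κ * Real.log X / Real.log (Real.log X)) ^ ((r : ℝ) / (r + 1)) with hS
  have has'' : Real.log CN + n * Real.log (Real.log X) ≤ ε / 2 * cst r (n.choose r) * S := by
    refine has'.trans (mul_le_mul_of_nonneg_left ?_ (by positivity))
    rw [hS]
    have hll : 0 ≤ Real.log (Real.log X) := Real.log_nonneg hlogX
    apply Real.rpow_le_rpow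
    · exact div_nonneg (by positivity) hll
    · apply div_le_div_of_nonneg_right _ hll
      exact mul_le_mul_of_nonneg_right hκ0 (by linarith)
    · positivity
  have hS0 : 0 ≤ S := by
    rw [hS]
    apply Real.rpow_nonneg
    apply div_nonneg (by positivity)
    exact Real.log_nonneg hlogX
  set EA : ℝ := Real.exp (((n : ℝ) - 1 - κ) * Real.log X + (1 + ε / 2) * cst r (n.choose r) * S)
    with hEA
  have hEA0 : 0 < EA := Real.exp_pos _
  have hXE : X ^ ((n : ℝ) - 1 - κ) ≤ EA := by
    rw [Real.rpow_def_of_pos hX0, hEA]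
    apply Real.exp_le_exp.mpr
    have : 0 ≤ (1 + ε / 2) * cst r (n.choose r) * S := by positivity
    linarith
  -- the tuples with a vanishing subsum
  set FV := F.filter (fun x => ¬ NV x) with hFV
  have hcV : (FV.card : ℝ) ≤ 6 ^ n * EA := by
    have h := card_V n X hX1 FV (by
      intro x hx
      obtain ⟨hxF, hN⟩ := Finset.mem_filter.1 hx
      exact ⟨(hF x hxF).1, (hF x hxF).2.2.2.1, hN⟩)
    have e1 : X ^ ((n : ℝ) - 2) ≤ X ^ ((n : ℝ) - 1 - κ) :=
      Real.rpow_le_rpow_of_exponent_le hX1 (by linarith)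
    calc (FV.card : ℝ) ≤ 2 ^ n * (3 ^ n * X ^ ((n : ℝ) - 2)) := h
      _ = 6 ^ n * X ^ ((n : ℝ) - 2) := by
          have : (6 : ℝ) ^ n = 2 ^ n * 3 ^ n := by rw [← mul_pow]; norm_num
          rw [this, mul_assoc]
      _ ≤ 6 ^ n * EA := mul_le_mul_of_nonneg_left (e1.trans hXE) (by positivity)
  -- the boxes
  set G : (Fin n → ℕ) → Finset (Fin n → ℤ) := fun e => F.filter (fun x => NV x ∧
    ∀ k, X / 2 ^ (e k) / 2 < |(x k : ℝ)| ∧ |(x k : ℝ)| ≤ X / 2 ^ (e k)) with hG
  have hGc : ∀ e, ((G e).card : ℝ) ≤ (6 ^ n + 2) * EA := by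
    intro e
    rcases (G e).eq_empty_or_nonempty with h0 | ⟨x0, hx0⟩
    · rw [h0, Finset.card_empty, Nat.cast_zero]
      positivity
    obtain ⟨hx0F, hN0, hx0B⟩ := Finset.mem_filter.1 hx0
    obtain ⟨-, hne, -, -, ⟨l, hl⟩, -⟩ := hF x0 hx0F
    have hel : e l = 0 := by
      by_contra hcon
      have h5 : X / 2 ^ (e l) ≤ X / 2 := by
        apply div_le_div_of_nonneg_left hX0.le (by norm_num)
        calc (2 : ℝ) = 2 ^ 1 := (pow_one _).symm
          _ ≤ 2 ^ (e l) := pow_le_pow_right₀ (by norm_num) (by omega)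
      linarith [(hx0B l).2]
    apply box_le h1 n r κ (1 / 6) hr hrn hκ X EA hX1 hXE
      (fun T B l F g1 g2 g3 g4 g5 g6 => ha κ X T B l F hκ0 hκ1 hXa g1 g2 g3 g4 g5 g6)
      (fun T B l F g1 g2 g3 g4 g5 g6 => hb κ X T B l F hκ0 hκ1 hXb g1 g2 g3 g4 g5 g6)
      (fun k => X / 2 ^ (e k)) l
    · intro k
      constructor
      · refine le_trans ?_ (hx0B k).2
        have := Int.one_le_abs (hne k)
        exact_mod_cast this
      · exact div_le_self hX0.le (one_le_pow₀ (by norm_num))
    · rw [hel]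
      simp
    · intro x hx
      obtain ⟨hxF, hN, hxB⟩ := Finset.mem_filter.1 hx
      obtain ⟨g1, g2, g3, g4, g5, g6⟩ := hF x hxF
      exact ⟨g1, g2, g3, hN, hxB, g6⟩
  set K : ℕ := ⌊2 * Real.log X⌋₊ with hK
  have hKle : (K : ℝ) ≤ 2 * Real.log X := Nat.floor_le (by positivity)
  have hcov : F ⊆ FV ∪ (Fintype.piFinset (fun _ : Fin n => range (K + 1))).biUnion G := by
    intro x hx
    rw [Finset.mem_union]
    by_cases hN : NV x
    · right
      obtain ⟨g1, g2, g3, g4, g5, g6⟩ := hF x hx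
      have hex : ∀ k, ∃ m : ℕ, (2 : ℝ) ^ m ≤ X / |(x k : ℝ)| ∧ X / |(x k : ℝ)| < 2 ^ (m + 1) := by
        intro k
        have hk1 : (1 : ℝ) ≤ |(x k : ℝ)| := by
          have := Int.one_le_abs (g2 k)
          exact_mod_cast this
        exact exists_nat_pow_near (by rw [le_div_iff₀ (by linarith)]; linarith [g4 k]) (by norm_num)
      choose e he using hex
      rw [Finset.mem_biUnion]
      refine ⟨e, ?_, ?_⟩
      · rw [Fintype.mem_piFinset]
        intro k
        have hk1 : (1 : ℝ) ≤ |(x k : ℝ)| := by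
          have := Int.one_le_abs (g2 k)
          exact_mod_cast this
        rw [Finset.mem_range, Nat.lt_succ_iff, hK]
        apply Nat.le_floor
        have h5 : (2 : ℝ) ^ (e k) ≤ X := (he k).1.trans (div_le_self hX0.le hk1)
        have h6 : Real.log ((2 : ℝ) ^ (e k)) ≤ Real.log X := Real.log_le_log (by positivity) h5
        rw [Real.log_pow] at h6
        have h8 := Real.log_two_gt_d9
        have h9 : (0 : ℝ) ≤ e k := Nat.cast_nonneg _
        nlinarith
      · refine Finset.mem_filter.2 ⟨hx, hN, fun k => ?_⟩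
        have hk1 : (1 : ℝ) ≤ |(x k : ℝ)| := by
          have := Int.one_le_abs (g2 k)
          exact_mod_cast this
        have hk0 : (0 : ℝ) < |(x k : ℝ)| := by linarith
        have h2k : (0 : ℝ) < 2 ^ (e k) := by positivity
        obtain ⟨he1, he2⟩ := he k
        rw [le_div_iff₀ hk0] at he1
        rw [div_lt_iff₀ hk0] at he2
        constructor
        · rw [div_div, div_lt_iff₀ (by positivity)]
          calc X < 2 ^ (e k + 1) * |(x k : ℝ)| := he2
            _ = |(x k : ℝ)| * (2 ^ (e k) * 2) := by ring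
        · rw [le_div_iff₀ h2k]
          linarith
    · left
      exact Finset.mem_filter.2 ⟨hx, hN⟩
  have hc2 : (((Fintype.piFinset (fun _ : Fin n => range (K + 1))).biUnion G).card : ℝ) ≤
      (3 * Real.log X) ^ n * ((6 ^ n + 2) * EA) := by
    calc (((Fintype.piFinset (fun _ : Fin n => range (K + 1))).biUnion G).card : ℝ)
        ≤ ((∑ e ∈ Fintype.piFinset (fun _ : Fin n => range (K + 1)), (G e).card : ℕ) : ℝ) := by
          exact_mod_cast Finset.card_biUnion_le
      _ = ∑ e ∈ Fintype.piFinset (fun _ : Fin n => range (K + 1)), ((G e).card : ℝ) := by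
          push_cast; rfl
      _ ≤ ∑ e ∈ Fintype.piFinset (fun _ : Fin n => range (K + 1)), (6 ^ n + 2) * EA :=
          Finset.sum_le_sum (fun e _ => hGc e)
      _ = ((K : ℝ) + 1) ^ n * ((6 ^ n + 2) * EA) := by
          rw [Finset.sum_const, Fintype.card_piFinset, Finset.prod_const, Finset.card_range,
            Finset.card_univ, Fintype.card_fin, nsmul_eq_mul]
          push_cast
          ring
      _ ≤ _ := by
          apply mul_le_mul_of_nonneg_right _ (by positivity)
          apply pow_le_pow_left₀ (by positivity)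
          linarith
  have hcard : (F.card : ℝ) ≤ FV.card +
      ((Fintype.piFinset (fun _ : Fin n => range (K + 1))).biUnion G).card := by
    exact_mod_cast (Finset.card_le_card hcov).trans (Finset.card_union_le _ _)
  have hln : 1 ≤ (Real.log X) ^ n := one_le_pow₀ hlogX
  have hfin : (F.card : ℝ) ≤ CN * (Real.log X) ^ n * EA := by
    have e1 : (6 : ℝ) ^ n * EA ≤ 6 ^ n * EA * (Real.log X) ^ n := by
      have : 0 ≤ (6 : ℝ) ^ n * EA := by positivity
      nlinarith
    calc (F.card : ℝ) ≤ 6 ^ n * EA + (3 * Real.log X) ^ n * ((6 ^ n + 2) * EA) := by linarith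
      _ ≤ 6 ^ n * EA * (Real.log X) ^ n + (3 * Real.log X) ^ n * ((6 ^ n + 2) * EA) := by linarith
      _ = CN * (Real.log X) ^ n * EA := by
          rw [hCN, mul_pow]
          ring
  have hfe : CN * (Real.log X) ^ n ≤ Real.exp (ε / 2 * cst r (n.choose r) * S) := by
    rw [← Real.exp_log (show 0 < CN * (Real.log X) ^ n by positivity)]
    apply Real.exp_le_exp.mpr
    rw [Real.log_mul hCN0.ne' (by positivity), Real.log_pow]
    exact has''
  calc (F.card : ℝ) ≤ CN * (Real.log X) ^ n * EA := hfin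
    _ ≤ Real.exp (ε / 2 * cst r (n.choose r) * S) * EA := mul_le_mul_of_nonneg_right hfe hEA0.le
    _ = _ := by
        rw [hEA, ← Real.exp_add]
        congr 1
        ring

end Pool.Agent.N564.RN
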