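import Pool.Agent.N709.UM.Stm3

/-!
# Project UM3 (helper709), leaf LW3 (helper564): words of small weight do not represent `z`

A variant of `Pool/Agent/N75/UM2LW2.lean` (helper75).
-/

set_option autoImplicit false

universe u

namespace Pool.Agent.N564.UM3LW3

open Pool.Agent.N709.UM

theorem bel_cons {G : Type u} {k : ℕ} {a : G ⊕ (ℕ × Bool)} {w : List (G ⊕ (ℕ × Bool))}
    (h : Bel k (a :: w)) : Bel k w :=
  fun j s hj => h j s (List.mem_cons_of_mem _ hj)

theorem cnt_mem {G : Type u} {j : ℕ} {s : Bool} {w : List (G ⊕ (ℕ × Bool))}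
    (h : (Sum.inr (j, s) : G ⊕ (ℕ × Bool)) ∈ w) : 1 ≤ cnt j w := by
  induction w with
  | nil => simp at h
  | cons a w ih =>
    rw [List.mem_cons] at h
    rcases h with h | h
    · rw [← h]
      simp only [cnt]
      rw [if_pos le_rfl]
      omega
    · have h1 := ih h
      rcases a with g | ⟨i, s'⟩
      · exact h1
      · simp only [cnt]
        omega

theorem ex_bel {G : Type u} (K : ℕ) (w : List (G ⊕ (ℕ × Bool))) : ∃ k, K ≤ k ∧ Bel k w := by
  induction w with
  | nil => exact ⟨K, le_rfl, fun j s h => absurd h (by simp)⟩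
  | cons a w ih =>
    obtain ⟨k, hk, hb⟩ := ih
    rcases a with g | ⟨i, s⟩
    · refine ⟨k, hk, fun j s hj => ?_⟩
      rw [List.mem_cons] at hj
      rcases hj with hj | hj
      · exact absurd hj (by simp)
      · exact hb j s hj
    · refine ⟨max k (i + 1), hk.trans (le_max_left _ _), fun j s' hj => ?_⟩
      rw [List.mem_cons] at hj
      rcases hj with hj | hj
      · simp only [Sum.inr.injEq, Prod.mk.injEq] at hj
        rw [hj.1]
        exact lt_of_lt_of_le (Nat.lt_succ_self i) (le_max_right _ _)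
      · exact lt_of_lt_of_le (hb j s' hj) (le_max_left _ _)

theorem noletter {G : Type u} [Group G] {ρ : G → ℝ} (hρ : PN ρ) (y : ℕ → G)
    (w : List (G ⊕ (ℕ × Bool)))
    (h : ∀ j s, (Sum.inr (j, s) : G ⊕ (ℕ × Bool)) ∉ w) :
    ρ (ev y w) ≤ wt ρ (fun _ => 0) w := by
  induction w with
  | nil =>
    simp only [ev, wt]
    exact hρ.one.le
  | cons a w ih =>
    have h1 := ih (fun j s hj => h j s (List.mem_cons_of_mem _ hj))
    rcases a with g | ⟨i, s⟩
    · simp only [ev, wt]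
      exact (hρ.mul _ _).trans (add_le_add le_rfl h1)
    · exact absurd List.mem_cons_self (h i s)

theorem pp_one {G : Type u} [Group G] (y : ℕ → G) (k : ℕ) : (1 : G) ∈ pp y k := by
  induction k with
  | zero => exact rfl
  | succ k ih => exact ⟨1, ih, 0, by simp, by simp⟩

theorem pn_nonneg {G : Type u} [Group G] {ρ : G → ℝ} (hρ : PN ρ) (g : G) : 0 ≤ ρ g := by
  have h1 := hρ.mul g g⁻¹
  rw [mul_inv_cancel, hρ.one, hρ.inv] at h1
  linarith

theorem dU_le {G : Type u} [Group G] {ρ : G → ℝ} (hρ : PN ρ) (U : Subgroup G) (g : G) :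
    dU ρ U g ≤ ρ g := by
  have h1 : BddBelow (Set.range fun u : U => ρ (g * u)) :=
    ⟨0, by rintro _ ⟨u, rfl⟩; exact pn_nonneg hρ _⟩
  have h2 := ciInf_le h1 (1 : U)
  simpa [dU] using h2

theorem lw3 : Pool.Agent.N709.UM.Rm3.{u} → Pool.Agent.N709.UM.Lw3.{u} := by
  intro hR G _ ρ hρ U y t K r z q hK ht htk hcj hcom hloss w hw1 hw2 hw3 he
  obtain ⟨S, hS⟩ : ∃ S : ℕ → ℝ, S = fun k => ∑ j ∈ Finset.Ico K k,
      (j : ℝ) * ((2 * (j : ℝ) + 1) * t j) := ⟨_, rfl⟩
  obtain ⟨T, hT⟩ : ∃ T : ℕ → ℝ, T = fun k => ∑ j ∈ Finset.Ico K k, t j := ⟨_, rfl⟩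
  have hS1 : ∀ k, K ≤ k → S (k + 1) = S k + (k : ℝ) * ((2 * (k : ℝ) + 1) * t k) := by
    intro k hk
    rw [hS]
    exact Finset.sum_Ico_succ_top hk _
  have hSK : S K = 0 := by
    rw [hS]
    simp
  have hT1 : ∀ k, K ≤ k → T (k + 1) = T k + t k := by
    intro k hk
    rw [hT]
    exact Finset.sum_Ico_succ_top hk _
  have hTK : T K = 0 := by
    rw [hT]
    simp
  have hT0 : ∀ k, 0 ≤ T k := by
    intro k
    rw [hT]
    exact Finset.sum_nonneg fun j _ => ht j
  have hTS : ∀ k, T k ≤ S k := by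
    intro k
    rw [hT, hS]
    refine Finset.sum_le_sum fun j hj => ?_
    have hj1 : 1 ≤ j := hK.trans (Finset.mem_Ico.1 hj).1
    have hj2 : (1 : ℝ) ≤ j := by exact_mod_cast hj1
    have h1 : (1 : ℝ) ≤ (j : ℝ) * (2 * (j : ℝ) + 1) := by nlinarith
    have h2 := mul_le_mul_of_nonneg_right h1 (ht j)
    rw [one_mul, mul_assoc] at h2
    exact h2
  have hS2 : ∀ k, K ≤ k → S k ≤ (4 / 3) * ((1 / 4 : ℝ) ^ K - (1 / 4) ^ k) := by
    intro k hk
    induction k, hk using Nat.le_induction with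
    | base => rw [hSK, sub_self, mul_zero]
    | succ k hk ih =>
      rw [hS1 k hk]
      have h1 := htk k
      have h2 : (1 / 4 : ℝ) ^ (k + 1) = (1 / 4) ^ k * (1 / 4) := pow_succ _ _
      rw [h2]
      linarith
  have hS3 : ∀ k, K ≤ k → S k ≤ 2 * (1 / 4 : ℝ) ^ K := by
    intro k hk
    have h1 := hS2 k hk
    have h2 : (0 : ℝ) < (1 / 4) ^ k := by positivity
    have h3 : (0 : ℝ) < (1 / 4) ^ K := by positivity
    linarith
  have claim : ∀ k, K ≤ k → ∀ w : List (G ⊕ (ℕ × Bool)), Bel k w → (∀ j, j < K → cnt j w = 0) →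
      (∀ j, K ≤ j → cnt j w ≤ j - 1) →
      ∃ v : G, ∃ h ∈ pp y k, ρ v ≤ wt ρ (fun _ => 0) w + S k ∧
        min (dU ρ U q) r - T k ≤ dU ρ U (h * q) ∧ ev y w = v * h := by
    intro k hk
    induction k, hk using Nat.le_induction with
    | base =>
      intro w hb hc _
      refine ⟨ev y w, 1, pp_one y K, ?_, ?_, ?_⟩
      · rw [hSK, add_zero]
        refine noletter hρ y w (fun j s hj => ?_)
        have h1 := hb j s hj
        have h2 := cnt_mem hj
        rw [hc j h1] at h2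
        omega
      · rw [hTK, sub_zero, one_mul]
        exact min_le_left _ _
      · rw [mul_one]
    | succ k hk ih =>
      intro w hb hc1 hc2
      have hck := hc2 k hk
      have hckr : ((cnt k w : ℕ) : ℝ) ≤ k := by exact_mod_cast (by omega : cnt k w ≤ k)
      have hkt : ((cnt k w : ℕ) : ℝ) * ((2 * (k : ℝ) + 1) * t k) ≤
          (k : ℝ) * ((2 * (k : ℝ) + 1) * t k) :=
        mul_le_mul_of_nonneg_right hckr (mul_nonneg (by positivity) (ht k))
      obtain ⟨w', M, g1, g2, g3, g4, g5⟩ := hR G ρ hρ (t k) (ht k) y k (hcj k hk) (hcom k hk)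
        w hb (by omega)
      have g4' : wt ρ (fun _ => 0) w' ≤ wt ρ (fun _ => 0) w +
          ((cnt k w : ℕ) : ℝ) * ((2 * (k : ℝ) + 1) * t k) := g4
      have hc1' : ∀ j, j < K → cnt j w' = 0 := by
        intro j hj
        have h6 := g2 j
        rw [hc1 j hj] at h6
        omega
      have hc2' : ∀ j, K ≤ j → cnt j w' ≤ j - 1 := fun j hj => (g2 j).trans (hc2 j hj)
      obtain ⟨v, h, hh, hv, hd, hev⟩ := ih w' g1 hc1' hc2'
      have hMk : M.natAbs ≤ k := by omega
      refine ⟨v, h * y k ^ M, ⟨h, hh, M, hMk, rfl⟩, ?_, ?_, ?_⟩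
      · rw [hS1 k hk]
        linarith
      · have h1 := hloss k hk h hh M hMk
        have h2 : min (dU ρ U q) r - T k ≤ min (dU ρ U (h * q)) r :=
          le_min hd (by have := min_le_right (dU ρ U q) r; have := hT0 k; linarith)
        rw [hT1 k hk]
        linarith
      · rw [g5, hev, mul_assoc]
  obtain ⟨k, hk, hb⟩ := ex_bel K w
  obtain ⟨v, h, hh, hv, hd, hev⟩ := claim k hk w hb hw1 hw2
  have h1 : h * q = v⁻¹ * (z * q) := by
    rw [← he, hev]
    group
  have h2 : dU ρ U (h * q) ≤ ρ v + ρ (z * q) := by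
    refine (dU_le hρ U _).trans ?_
    rw [h1]
    have h3 := hρ.mul v⁻¹ (z * q)
    rwa [hρ.inv] at h3
  have h3 := hS3 k hk
  have h4 := hTS k
  have h5 : wt ρ (fun _ => 0) w + ρ (z * q) + 4 * (1 / 4 : ℝ) ^ K < min (dU ρ U q) r := hw3
  linarith

end Pool.Agent.N564.UM3LW3
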